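import Pool.Agent.Q45.TW.PicI

/-!
# Complete `2`-descent over base curves of every genus

Let `k` be a field of characteristic different from `2`, `g` a monic polynomial over `k` of odd degree,
`c₁, …, c_m` elements of `k`, and `𝒞` the curve `y_i ^ 2 = t + c_i`, `i = 1, …, m`, over `k` in the
variables `t, y₁, …, y_m`; its genus is `1 + 2 ^ (m - 2) (m - 3)` for `m ≥ 2`. Let `K = k(𝒞)` and let `J`
be the Jacobian of the hyperelliptic curve `w ^ 2 = f(x)`, `f(x) = g(x) + t`, over `K`.

(1) Under conditions on the factors of the polynomials `g - c_s` (independence of the `c_i - c_s`, `i < s`,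
modulo squares, and a condition of Rédei) the `2`-primary part of the Tate-Shafarevich group of `J` is
zero, already for the closed points of `𝒞` over the affine `t`-line, and `J(K)` has a basis at `2` with
`∑ (ω_i - 1)` elements, where `ω_i` is the number of the irreducible factors of `g - c_i`.

(2) Let `k₀` be a field of characteristic different from `2`, `f₀` a monic polynomial over `k₀` of odd
degree at least `3`, `k = k₀(h, x₁, …, x_r)`, `g(x) = f₀(x) + h x` and `c_i = g(x_i)`, so that
`t + c_i = f(x_i)` and `𝒞` is given by `y_i ^ 2 = f(x_i)`. Then the conclusion on the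
Tate-Shafarevich group holds, and the classes of the marked points `(x_i, y_i)` are a basis of `J(K)` at
`2`.
-/

set_option autoImplicit false
set_option linter.all false

open Polynomial IsDedekindDomain
open scoped Classical

namespace Pool.Agent.Results.MP_1bdb59_nt.BaseCurvesEveryGenus

open Pool.Agent.Y160.SL
open Pool.Agent.Q45.TW (IsIdealClass)

/-- The elements of `k` as elements of `K`. -/
noncomputable def const (k K : Type) [Field k] [Field K] [Algebra k[X] K] : k →+* K :=
  (algebraMap k[X] K).comp C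

/-- The polynomial `f(x) = g(x) + t` over `K`, where `t` is the variable of `k[t]`. -/
noncomputable def fPoly {k : Type} [Field k] (g : k[X]) (K : Type) [Field K] [Algebra k[X] K] : K[X] :=
  g.map (const k K) + C (algebraMap k[X] K X)

/-- `K = k(t, y₁, …, y_m)`, where `t` is transcendental over `k` and `y_i ^ 2 = t + c_i`. -/
structure IsFunctionField {k : Type} [Field k] {m : ℕ} (c : Fin m → k) (K : Type)
    [Field K] [Algebra k[X] K] (y : Fin m → K) : Prop where
  inj : Function.Injective (algebraMap k[X] K)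
  sq : ∀ i, y i ^ 2 = algebraMap k[X] K (X + C (c i))
  gen : Subfield.closure (Set.range (algebraMap k[X] K) ∪ Set.range y) = ⊤

/-- The polynomial `p` is a square modulo `G`. -/
def IsSquareMod {k : Type} [Field k] (G p : k[X]) : Prop := ∃ w : k[X], G ∣ p - w ^ 2

/-- The product of the `c_i - c_s` for the `i` in `I`. -/
noncomputable def diffProd {k : Type} [Field k] {m : ℕ} (c : Fin m → k) (s : Fin m)
    (I : Finset (Fin m)) : k := ∏ i ∈ I, (c i - c s)

/-- The product of the polynomials `g - c_i` for the `i` in `I`. -/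
noncomputable def polyProd {k : Type} [Field k] {m : ℕ} (g : k[X]) (c : Fin m → k)
    (I : Finset (Fin m)) : k[X] := ∏ i ∈ I, (g - C (c i))

/-- For each irreducible factor `G` of `g - c_s`, a product of different `c_i - c_s`, `i < s`, is not a
square modulo `G`, the empty product excepted. -/
def Independent {k : Type} [Field k] {m : ℕ} (g : k[X]) (c : Fin m → k) (s : Fin m) : Prop :=
  ∀ G : k[X], G.Monic → Irreducible G → G ∣ g - C (c s) → ∀ I : Finset (Fin m), I ≠ ∅ →
    (∀ i ∈ I, i < s) → ¬ IsSquareMod G (C (diffProd c s I))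

/-- The condition of Rédei: if `a` is a monic divisor of the product of some of the `g - c_i`, `i < s`,
and for each irreducible factor `G` of `g - c_s` the product of `(-1) ^ (deg a) a` and some of the
`c_i - c_s`, `i < s`, is a square modulo `G`, then `a` is a product of some of the `g - c_i`, `i < s`. -/
def Redei {k : Type} [Field k] {m : ℕ} (g : k[X]) (c : Fin m → k) (s : Fin m) : Prop :=
  ∀ a : k[X], a.Monic → (∃ J : Finset (Fin m), (∀ i ∈ J, i < s) ∧ a ∣ polyProd g c J) →
    (∀ G : k[X], G.Monic → Irreducible G → G ∣ g - C (c s) → ∃ I : Finset (Fin m),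
      (∀ i ∈ I, i < s) ∧ IsSquareMod G ((-1) ^ a.natDegree * a * C (diffProd c s I))) →
    ∃ I : Finset (Fin m), (∀ i ∈ I, i < s) ∧ a = polyProd g c I

/-- The conditions for all `c_s`: the polynomial `g - c_s` is separable, and the conditions of
independence and of Rédei hold. -/
def Admissible {k : Type} [Field k] {m : ℕ} (g : k[X]) (c : Fin m → k) : Prop :=
  ∀ s, (g - C (c s)).Separable ∧ Independent g c s ∧ Redei g c s

/-- The number of the irreducible factors of a polynomial, with multiplicities. -/
noncomputable def numFactors {k : Type} [Field k] (p : k[X]) : ℕ :=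
  (UniqueFactorizationMonoid.normalizedFactors p).card

/-- The elements `h` (for `none`) and `x_i` (for `some i`) of the field `k = k₀(h, x₁, …, x_r)`. -/
noncomputable def var (k₀ : Type) [Field k₀] (r : ℕ) (k : Type) [Field k]
    [Algebra (MvPolynomial (Option (Fin r)) k₀) k] (i : Option (Fin r)) : k :=
  algebraMap (MvPolynomial (Option (Fin r)) k₀) k (MvPolynomial.X i)

/-- The polynomial `g(x) = f₀(x) + h x` over `k = k₀(h, x₁, …, x_r)`. -/
noncomputable def gPoly {k₀ : Type} [Field k₀] (r : ℕ) (k : Type) [Field k]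
    [Algebra (MvPolynomial (Option (Fin r)) k₀) k] (f₀ : k₀[X]) : k[X] :=
  f₀.map ((algebraMap (MvPolynomial (Option (Fin r)) k₀) k).comp MvPolynomial.C) +
    C (var k₀ r k none) * X

/-- The ideal of the point `(a, b)` in the coordinate ring of the affine curve `w ^ 2 = f(x)`. -/
noncomputable def ptIdeal {K : Type} [Field K] (f : K[X]) (a b : K) : Ideal (CoordRing 2 f) :=
  Ideal.span {ofPoly 2 f (X - C a), wfun 2 f - ofPoly 2 f (C b)}

/-- The element `P` of `J(K) = Pic(K[x, w] / (w ^ 2 - f(x)))` is the class of the ideal of the point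
`(a, b)`. -/
def IsPoint {K : Type} [Field K] (f : K[X]) (a b : K) (P : Jac 2 f K) : Prop :=
  IsIdealClass (R := CoordRing 2 (f.map (algebraMap K K))) P (ptIdeal (f.map (algebraMap K K)) a b)

/-- The criterion. Here `A` is the integral closure of `k[t]` in `K`, and the last assertion means that
`J(K)` has a basis at `2` with `∑ (ω_i - 1)` elements, where `ω_i` is the number of the irreducible
factors of `g - c_i`. -/
def Criterion : Prop :=
  ∀ (k : Type) [Field k] (g : k[X]) (m : ℕ) (c : Fin m → k), (2 : k) ≠ 0 → g.Monic →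
    Odd g.natDegree → derivative g ≠ 0 → Admissible g c →
    ∀ (K : Type) [Field K] [Algebra k[X] K] (y : Fin m → K), IsFunctionField c K y →
    ∀ (A : Type) [CommRing A] [IsDedekindDomain A] [Algebra A K] [IsFractionRing A K]
      [Algebra k[X] A] [IsScalarTower k[X] A K] [IsIntegralClosure A k[X] K],
      ShaTriv 2 2 A (fPoly g K) ∧
      ∃ D : Fin (∑ i, (numFactors (g - C (c i)) - 1)) → Jac 2 (fPoly g K) K, IsBasisAt 2 D

/-- The universal case: `k = k₀(h, x₁, …, x_r)`, `g(x) = f₀(x) + h x`, `c_i = g(x_i)`. -/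
def Universal : Prop :=
  ∀ (k₀ : Type) [Field k₀] (f₀ : k₀[X]) (r : ℕ), (2 : k₀) ≠ 0 → f₀.Monic →
    3 ≤ f₀.natDegree → Odd f₀.natDegree → ∀ (k : Type) [Field k]
      [Algebra (MvPolynomial (Option (Fin r)) k₀) k]
      [IsFractionRing (MvPolynomial (Option (Fin r)) k₀) k]
      (K : Type) [Field K] [Algebra k[X] K] (y : Fin r → K),
    IsFunctionField (fun i => (gPoly r k f₀).eval (var k₀ r k (some i))) K y →
    ∀ (A : Type) [CommRing A] [IsDedekindDomain A] [Algebra A K] [IsFractionRing A K]
      [Algebra k[X] A] [IsScalarTower k[X] A K] [IsIntegralClosure A k[X] K],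
      ShaTriv 2 2 A (fPoly (gPoly r k f₀) K) ∧
      ∃ P : Fin r → Jac 2 (fPoly (gPoly r k f₀) K) K, IsBasisAt 2 P ∧
        ∀ i, IsPoint (fPoly (gPoly r k f₀) K) (const k K (var k₀ r k (some i))) (y i) (P i)

/-- (1) The criterion. (2) The universal case. -/
theorem result : Criterion ∧ Universal := by
  constructor
  · intro k _ g m c h2 hg hodd hd h K _ _ y hK A _ _ _ _ _ _ _
    obtain ⟨h1, -, D, hD⟩ := Pool.Agent.Q45.TW.crit_all h2 hg hodd hd
      (fun s => ⟨(h s).1, fun G h1 h3 h4 I h5 h6 w hw => (h s).2.1 G h1 h3 h4 I h5 h6 ⟨w, hw⟩,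
        fun a ha had hc => (h s).2.2 a ha ⟨_, fun i hi => (Finset.mem_filter.1 hi).2, had⟩
          fun G h1 h3 h4 => by
            obtain ⟨I, w, h5, h6⟩ := hc G h1 h3 h4
            exact ⟨I, h5, w, h6⟩⟩) (⟨hK.inj, hK.sq, hK.gen⟩ :
        Pool.Agent.Q45.TW.IsCov k c K y)
    exact ⟨shaTriv_of (h1 A), D, hD⟩
  · intro k₀ _ f₀ r h2 hf hn hodd k _ _ _ K _ _ y hK A _ _ _ _ _ _ _
    obtain ⟨q, hD⟩ := Pool.Agent.Q45.TW.univ_all (k := k) (G := gPoly r k f₀)
      (x := fun i => var k₀ r k (some i)) h2 hf (by omega) hodd rfl fun i => rfl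
    have hC : Pool.Agent.Q45.TW.IsCov k (fun i => (gPoly r k f₀).eval (var k₀ r k (some i))) K y :=
      ⟨hK.inj, hK.sq, hK.gen⟩
    refine ⟨shaTriv_of (hD.sha (A := A) hC), _, hD.basis hC, fun i => ?_⟩
    have h1 := hD.cls hC i
    rw [Polynomial.map_sub, map_X, map_C] at h1
    exact Pool.Agent.Q45.TW.cl_class h1

end Pool.Agent.Results.MP_1bdb59_nt.BaseCurvesEveryGenus
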