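import Pool.Agent.Q269.FG.Coh

/-!
# The Selmer group conjecture over `k(t)` for almost all superelliptic twists, for every finitely
# generated field `k` of characteristic zero

Let `k` be any finitely generated field of characteristic zero (of any transcendence degree), `ℓ` an
odd prime such that `k` contains the roots of unity of order `ℓ`, `A ⊆ k` any finitely generated
subring (for example `A = ℤ`, or `A` with fraction field `k`), `n ≥ 3` prime to `ℓ`, and
`b 1, …, b n` polynomials over `A` such that all the differences `b i - b j` (`i ≠ j`) have the same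
degree `N ≥ 1` and the product of the differences `b i - b j`, `i < j`, is squarefree over `k`. (For
example `N = 1`, `b i = c i t + (c i) ^ 2`, where the `c i` are distinct elements of `A` such that the
sums `c i + c j`, `i < j`, are distinct.) For a monic polynomial `D` over `A` let `J_D` be the Jacobian
of the curve of genus `(ℓ - 1) (n - 1) / 2`

`y ^ ℓ = D(t) (x - b 1) ⋯ (x - b n)`.

Theorem. For every `η > 0` there is a proper ideal `M` of finite index of `A` such that, for all large
`m` with `m` and `m + n N` not divisible by `ℓ`, for at least the proportion `1 - η` of the monic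
polynomials `E` of degree `m` over `A / M`, EVERY monic `D` over `A` congruent to `E` modulo `M` has the
following property: there are a prime number `p` and an embedding `k → ℚ_p` which maps `A` into `ℤ_p`
such that for EVERY field `k₁` between `k` and `ℚ_p` (for `k₁ = k`, for infinitely many finite
extensions of `k`, for finitely generated fields `k₁` of every larger transcendence degree, and also
for `k₁ = ℚ_p`)

1. all classes of `ℓ`-power order in `H ^ 1 (k₁(t), J_D)` which are trivial over the completions of
  `k₁(t)` at all the maximal ideals of `k₁[t]` are zero, and the `ℓ`-adic Tate module of this group is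
  zero; so for finitely generated `k₁` the map `J_D(K) ⊗ ℤ_ℓ → Sel(J_D, ℤ_ℓ)` is an isomorphism,
  `K = k₁(t)`: the Selmer group conjecture holds for `J_D` over `K` at the prime `ℓ`;
2. every point of `J_D(K)` is the sum of a `K`-point killed by `ℓ` and of `ℓ` times a `K`-point; so for
  finitely generated `k₁` the group `J_D(K)` is finite.

So 100 percent of the polynomials `D` over `A` (a random residue class modulo ideals of finite index)
have this property. The starting files contain the theorem for number fields `k`
(`MP_89bcae_ag.SuperellipticSurfaces`); here are all the finitely generated fields of characteristic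
zero, and all the intermediate fields of `k` and `ℚ_p` at the same time.

The proof: an integral form of the embedding theorem of Cassels (`Pool.Agent.Q269.FG.Emb`) gives
infinitely many primes `p` with an embedding of `k` into `ℚ_p` which is integral at finitely many given
elements. The kernel of `A → ℤ_p → ZMod p` is a maximal ideal `I` with `A / I = ZMod p`. For a field
`k₁` between `k` and `ℚ_p` the ring `k₁ ∩ ℤ_p` is a discrete valuation ring with residue field
`ZMod p`, and the descent by `1 - ζ` over `k₁(t)` is transferred to `ZMod p (t)`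
(`Pool.Agent.Y164.NZ.imp_good`), where the matrix of the residue symbols has trivial kernel for a
positive proportion of the polynomials, uniform in `p`. Finally many primes `p` are used at the same
time.
-/

set_option autoImplicit false
set_option linter.all false

namespace Pool.Agent.Results.MP_1bdb59_nt.DensityOneCharZero

open Polynomial
open Pool.Agent.Q269.FG.Coh

section
variable {A k : Type} [CommRing A] [Field k] [Algebra A k] (ℓ : ℕ) {n : ℕ} (b : Fin n → A[X])

/-- The polynomial `q` over `A` as a polynomial over the extension `k₁` of `k`. -/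
noncomputable def overField (k : Type) [Field k] [Algebra A k] (k₁ : Type) [Field k₁]
    [Algebra k k₁] (q : A[X]) : k₁[X] :=
  q.map ((algebraMap k k₁).comp (algebraMap A k))

/-- The Jacobian of `y ^ ℓ = D(t) ∏ (x - b i)` satisfies the conjecture over `k₁(t)` for every extension
`k₁` of `k` with an embedding into `ℚ_p` which extends the embedding `φ` of `k`. -/
def HoldsInside (p : ℕ) [Fact p.Prime] (φ : k →+* ℚ_[p]) (D : A[X]) : Prop :=
  ∀ (k₁ : Type) [Field k₁] [Algebra k k₁] (φ₁ : k₁ →+* ℚ_[p]), φ₁.comp (algebraMap k k₁) = φ →
    ∀ (K₁ : Type) [Field K₁] [Algebra k₁[X] K₁] [IsFractionRing k₁[X] K₁],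
      SelmerConjecture ℓ k₁ K₁
        (twist K₁ (fun i => overField k k₁ (b i)) (overField k k₁ D))

variable (k) in
/-- There are a prime `p` and an embedding of `k` into `ℚ_p` which maps `A` into `ℤ_p` such that the
conjecture holds over all the intermediate fields. -/
def HasProperty (D : A[X]) : Prop :=
  ∃ (p : ℕ) (_ : Fact p.Prime) (φ : k →+* ℚ_[p]), (∀ a : A, ‖φ (algebraMap A k a)‖ ≤ 1) ∧
    HoldsInside ℓ b p φ D

end

theorem result {ℓ : ℕ} (hℓ : ℓ.Prime) (hℓ2 : ℓ ≠ 2) {k : Type} [Field k] [CharZero k]
    (hk : IsFinitelyGenerated k) (hζ : ∃ ζ : k, IsPrimitiveRoot ζ ℓ) {A : Type} [CommRing A]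
    [Algebra.FiniteType ℤ A] [Algebra A k] (hA : Function.Injective (algebraMap A k)) {n : ℕ}
    (hn : ¬ ℓ ∣ n) (hn3 : 3 ≤ n) {N : ℕ} (b : Fin n → A[X]) (hb : IsAdmissible k N b) :
    HoldsForAlmostAll {m | ¬ ℓ ∣ m ∧ ¬ ℓ ∣ m + n * N} (HasProperty k ℓ b) := by
  obtain ⟨ζ, hζ⟩ := hζ
  refine HoldsForAlmostAll.of (Q := Pool.Agent.Q269.FG.PropD (algebraMap A k) ℓ N b) ?_ ?_
  · intro η hη
    obtain ⟨M, hM1, hM2, h⟩ := Pool.Agent.Q269.FG.main hℓ hℓ2 hk hζ (algebraMap A k) hA
      range_le_of_finiteType hn hn3 hb.pos b hb.degree hb.squarefree η hη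
    refine ⟨M, hM1, hM2, ?_⟩
    filter_upwards [h] with m hm hmS
    exact hm hmS.1 hmS.2
  · rintro D hD ⟨p, hp, φ, hφ, hext, -⟩
    refine ⟨p, hp, φ, hφ, ?_⟩
    intro k₁ _ _ φ₁ hφ₁ K₁ _ _ _
    obtain ⟨⟨h3, h4⟩, -⟩ := hext k₁ (algebraMap k k₁) φ₁ hφ₁ K₁
    exact ⟨h3, ShaTrivial.tate h3, h4⟩

end Pool.Agent.Results.MP_1bdb59_nt.DensityOneCharZero
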