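import Pool.Agent.Q269.OL.Fin

/-!
# The joint law of the defects in the Tate conjecture for the surfaces of several families

Let `k` be a finite field of characteristic different from 2, `ℓ` an odd prime, `ζ` a primitive `ℓ`-th
root of unity in `k` and `K = k(t)`. Let `R` be a finite set, and for each `r` in `R` let `n r ≥ 3` be
prime to `ℓ` and let `a r 1, …, a r (n r)` be polynomials over `k` such that all the differences
`a r i - a r j` (`i ≠ j`) have the same degree `N r ≥ 1` and the product `Δ r` of the differences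
`a r i - a r j`, `i < j`, is squarefree; suppose that `Δ r` and `Δ r'` are coprime for `r ≠ r'`. For a
monic squarefree polynomial `D` prime to all the `Δ r` let `J = J(r, D)` be the Jacobian of the curve of
genus `(ℓ - 1) (n r - 1) / 2`

`y ^ ℓ = D(t) (x - a r 1) ⋯ (x - a r (n r))`

over `K`. All these families are twisted by the same polynomial `D`. The group `J(L)`, `L` an extension
of `K`, is the class group `Pic(L[x, y] / (y ^ ℓ - D(t) ∏ (x - a r i)))` (there is one point at infinity
and it is rational), and `ζ` acts on it by `y ↦ ζ y`. Let `Sha'(J)` be the group of the classes in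
`H ^ 1 (K, J)` which are trivial over the completions of `K` at all the places different from infinity;
it contains the Tate-Shafarevich group. Let `φ = 1 - ζ` and

`S(r, D) = |J(K) / (J(K)[φ] + φ J(K))| |Sha'(J)[φ]|`, `s(r, D) = log_ℓ S(r, D)` (rounded up).

As a module over `ℤ_ℓ[ζ]` the group `J(K) ⊗ ℤ_ℓ` has rank `rank J(K) / (ℓ - 1)`, and the divisible part
of `Sha'(J)[ℓ ^ ∞]` is the sum of `c / (ℓ - 1)` copies of `ℚ_ℓ(ζ) / ℤ_ℓ[ζ]`, `c` its corank; so

`rank J(K) + c ≤ (ℓ - 1) s(r, D)`.

The corank `c` is an upper bound for the defect in the conjecture of Tate for the smooth projective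
model `X(r, D)` over `k` of the surface `y ^ ℓ = D(t) ∏ (x - a r i)` at the prime `ℓ`, that is the
dimension of `V_ℓ Br(X(r, D))`, or the dimension of the space of the Galois invariant classes in
`H ^ 2 (1)` minus the rank of the group of Néron and Severi (Tate, Artin, Grothendieck).

Theorem. (1) The numbers `S(r, D)` are finite. If `S(r, D) = 1`, then the `ℓ`-primary part of `Sha'(J)` is
zero and every point of `J(K)` is the sum of a point killed by `ℓ` and of `ℓ` times a point, so that
`J(K)` is finite and `X(r, D)` satisfies the conjecture of Tate.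

(2) Let `p` be the probability distribution

`p(e) = α / ((ℓ - 1) (ℓ ^ 2 - 1) ⋯ (ℓ ^ e - 1))`, `α = ∏_{i ≥ 1} (1 + ℓ ^ (-i)) ^ (-1)`

on the natural numbers (the distribution of the dimensions of the kernels of large symmetric matrices
over the field with `ℓ` elements), and let `X_r`, `r ∈ R`, be independent random variables with the law
`p`. As the degree `m` of `D` tends to infinity, `m + n r * N r` not divisible by `ℓ` for all `r`, the
random vector `(s(r, D))_r`, `D` uniformly distributed among the monic squarefree polynomials of degree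
`m` prime to the `Δ r`, is stochastically dominated by the vector `(X_r)_r` in the limit: for every
bounded non-decreasing function `f` on `ℕ ^ R` the limit superior of the mean of `f((s(r, D))_r)` is at
most the expected value of `f((X_r)_r)`.

For instance, for all `e` in `ℕ ^ R` the inequalities `rank J(r, D)(K) + c(r, D) ≤ (ℓ - 1) e r` hold for
all `r` together for at least the proportion `∏_r (p(0) + ⋯ + p(e r)) - ε` of the `D`; and
`(p(0) + p(1)) ^ |R|` is at least `1 - |R| / (ℓ - 1) ^ 2 / (ℓ + 1)`. The case of the monotone functions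
of the set of the `r` with `S(r, D) = 1` is the earlier theorem SimultaneousFamilies (independence of the
events that `J(r, D)(K)` and `Sha'(J)[ℓ ^ ∞]` are trivial), which this theorem replaces.

The proof: `S(r, D)` is at most the order `z(r, D)` of the kernel of an explicit symmetric matrix over
the field with `ℓ` elements, whose entries are `ℓ`-th power residue symbols of the prime factors of `D`
and of `Δ r`; the block of the symbols of the prime factors of `D` is the same for all `r`. All the mixed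
moments of the numbers of the linearly independent tuples in the `|R|` kernels are computed; they are
asymptotically the products of the moments for the law `p`, and every indicator function of a value of
the vector of the dimensions is bounded from above by a polynomial in these numbers with almost the same
expected value (Euler's identity).
-/

set_option autoImplicit false
set_option linter.all false

namespace Pool.Agent.Results.MP_1bdb59_nt.JointDefectLaw

open Polynomial Filter Pool.Agent.Y713.Jac IsDedekindDomain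
open scoped Classical

/-- The product of the differences `a i - a j`, `i < j`. -/
noncomputable def differences {k : Type} [Field k] {n : ℕ} (a : Fin n → k[X]) : k[X] :=
  ∏ x ∈ (Finset.univ : Finset (Fin n × Fin n)).filter (fun x => x.1 < x.2), (a x.1 - a x.2)

/-- The monic squarefree polynomials `D` of degree `m` prime to the differences `a r i - a r j` of all
the families. -/
def Twists {k : Type} [Field k] {R : Type} {n : R → ℕ} (a : (r : R) → Fin (n r) → k[X]) (m : ℕ) :
    Set k[X] :=
  {D | D.Monic ∧ D.natDegree = m ∧ Squarefree D ∧ ∀ r i j, i ≠ j → IsCoprime D (a r i - a r j)}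

/-- The polynomial `D(t) ∏ (x - a i)` in `x` over `K = k(t)`. -/
noncomputable def twist {k : Type} [Field k] (K : Type) [Field K] [Algebra k[X] K] {n : ℕ}
    (a : Fin n → k[X]) (D : k[X]) : K[X] :=
  C (algebraMap k[X] K D) * ∏ i, (X - C (algebraMap k[X] K (a i)))

/-- The endomorphism `y ↦ ζ y` of the coordinate ring `L[x, y] / (y ^ ℓ - F(x))`. -/
noncomputable def rotate (ℓ : ℕ) {K : Type} [Field K] (F : K[X]) {ζ : K} (hζ : ζ ^ ℓ = 1)
    (L : Type) [Field L] [Algebra K L] : CoordRing ℓ F L →+* CoordRing ℓ F L :=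
  AdjoinRoot.lift (AdjoinRoot.of _)
    (AdjoinRoot.of _ (C (algebraMap K L ζ)) * AdjoinRoot.root _) (by
    have h := AdjoinRoot.eval₂_root (X ^ ℓ - C (F.map (algebraMap K L)) : L[X][X])
    rw [eval₂_sub, eval₂_pow, eval₂_X, eval₂_C] at h
    rw [eval₂_sub, eval₂_pow, eval₂_X, eval₂_C, mul_pow, ← map_pow, ← C_pow, ← map_pow, hζ,
      map_one, C_1, map_one, one_mul]
    exact h)

/-- The endomorphism `φ = 1 - ζ` of `J(L)`. -/
noncomputable def phi (ℓ : ℕ) {K : Type} [Field K] (F : K[X]) {ζ : K} (hζ : ζ ^ ℓ = 1)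
    {L : Type} [Field L] [Algebra K L] (x : J ℓ F L) : J ℓ F L :=
  x / CommRing.Pic.mapRingHom (rotate ℓ F hζ L) x

/-- For the Jacobian `J` of `y ^ ℓ = F(x)` over `K = Frac R`, the number of the elements of
`J(K) / (J(K)[φ] + φ J(K))` times the number of the classes in `H ^ 1 (K, J)` killed by `φ` which are
trivial over the completions of `K` at the primes of `R` is at most `M`: if `x 1, …, x A` are points
different modulo `J(K)[φ] + φ J(K)` and `c 1, …, c B` are cocycles, locally trivial, killed by `φ` in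
`H ^ 1` and pairwise not cohomologous, then `A * B ≤ M`. -/
def BoundsPointsAndSha (ℓ : ℕ) {K : Type} [Field K] (F : K[X]) {ζ : K} (hζ : ζ ^ ℓ = 1) (R : Type)
    [CommRing R] [IsDedekindDomain R] [Algebra R K] [IsFractionRing R K] (M : ℕ) : Prop :=
  ∀ (A B : ℕ) (x : Fin A → J ℓ F K) (c : Fin B → Cochain ℓ F),
    (∀ i j, i ≠ j → ¬ ∃ T y : J ℓ F K, phi ℓ F hζ T = 1 ∧ x i = x j * T * phi ℓ F hζ y) →
    (∀ j, IsCocycle ℓ F (c j)) → (∀ j, IsLocallyTrivial ℓ F R (c j)) →
    (∀ j, IsCoboundary ℓ F (fun σ => phi ℓ F hζ (c j σ))) →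
    (∀ i j, i ≠ j → ¬ IsCoboundary ℓ F (fun σ => c i σ / c j σ)) → A * B ≤ M

/-- The number `S`: the product of the orders of the groups `J(K) / (J(K)[φ] + φ J(K))` and
`Sha'(J)[φ]`, the smallest number which satisfies `BoundsPointsAndSha`. -/
noncomputable def order (ℓ : ℕ) {K : Type} [Field K] (F : K[X]) {ζ : K} (hζ : ζ ^ ℓ = 1)
    (R : Type) [CommRing R] [IsDedekindDomain R] [Algebra R K] [IsFractionRing R K] : ℕ :=
  sInf {M : ℕ | BoundsPointsAndSha ℓ F hζ R M}

/-- The number `s`: the smallest `s` with `S ≤ ℓ ^ s`. -/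
noncomputable def defect (ℓ : ℕ) {K : Type} [Field K] (F : K[X]) {ζ : K} (hζ : ζ ^ ℓ = 1)
    (R : Type) [CommRing R] [IsDedekindDomain R] [Algebra R K] [IsFractionRing R K] : ℕ :=
  Nat.clog ℓ (order ℓ F hζ R)

/-- The root of unity `ζ` as an element of `K`. -/
theorem root {ℓ : ℕ} {k : Type} [Field k] {ζ : k} (hζ : IsPrimitiveRoot ζ ℓ) (K : Type) [Field K]
    [Algebra k[X] K] : (algebraMap k[X] K (C ζ)) ^ ℓ = 1 := by
  rw [← map_pow, ← C_pow, hζ.pow_eq_one, C_1, map_one]

/-- Every element of the group is the product of an element killed by `ℓ` and of an `ℓ`-th power. -/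
def TorsionTimesPowers (ℓ : ℕ) (G : Type) [CommGroup G] : Prop :=
  ∀ P : G, ∃ T Q : G, T ^ ℓ = 1 ∧ P = T * Q ^ ℓ

/-- The mean of `f` over the set `S`. -/
noncomputable def mean {α : Type} (S : Set α) (f : α → ℝ) : ℝ := (∑ᶠ D ∈ S, f D) / (S.ncard : ℝ)

/-- The probability of `e` in the law `p`. -/
noncomputable def law (ℓ e : ℕ) : ℝ :=
  (∏' i : ℕ, (1 + ((ℓ : ℝ)⁻¹) ^ (i + 1))⁻¹) / ∏ i ∈ Finset.range e, ((ℓ : ℝ) ^ (i + 1) - 1)

theorem law_eq (ℓ : ℕ) : law ℓ = Pool.Agent.Q269.OL.lw ℓ := by
  funext e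
  rw [law, Pool.Agent.Q269.OL.lw, Pool.Agent.Q269.OL.al, Pool.Agent.Q269.OL.ce, mul_one_div]

theorem result (ℓ : ℕ) (hℓ : ℓ.Prime) (hl2 : ℓ ≠ 2) (k : Type) [Field k] [Finite k]
    (h2 : (2 : k) ≠ 0) (ζ : k) (hζ : IsPrimitiveRoot ζ ℓ)
    (K : Type) [Field K] [Algebra k[X] K] [IsFractionRing k[X] K] (R : Type) [Fintype R]
    (n : R → ℕ) (hn : ∀ r, ¬ ℓ ∣ n r) (hn3 : ∀ r, 3 ≤ n r) (N : R → ℕ) (hN : ∀ r, 1 ≤ N r)
    (a : (r : R) → Fin (n r) → k[X])
    (ha : ∀ r i j, i ≠ j → (a r i - a r j).natDegree = N r)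
    (hs : ∀ r, Squarefree (differences (a r)))
    (hc : ∀ r r', r ≠ r' → IsCoprime (differences (a r)) (differences (a r'))) :
    (∃ c : ℝ, 0 < c ∧ ∀ᶠ m : ℕ in atTop,
      c * (Nat.card k : ℝ) ^ m ≤ ((Twists a m).ncard : ℝ)) ∧
    (∀ m : ℕ, (∀ r, ¬ ℓ ∣ m + n r * N r) → ∀ D ∈ Twists a m, ∀ r,
      BoundsPointsAndSha ℓ (twist K (a r) D) (root hζ K) k[X]
        (order ℓ (twist K (a r) D) (root hζ K) k[X]) ∧
      (order ℓ (twist K (a r) D) (root hζ K) k[X] = 1 →
        ShaPrimaryTrivial ℓ (twist K (a r) D) k[X] ∧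
        TorsionTimesPowers ℓ (J ℓ (twist K (a r) D) K))) ∧
    HasSum (law ℓ) 1 ∧
    ∀ f : (R → ℕ) → ℝ, Monotone f → (∃ B : ℝ, ∀ e, |f e| ≤ B) →
      Summable (fun e : R → ℕ => f e * ∏ r, law ℓ (e r)) ∧
      ∀ ε : ℝ, 0 < ε → ∀ᶠ m : ℕ in atTop, (∀ r, ¬ ℓ ∣ m + n r * N r) →
        mean (Twists a m) (fun D => f fun r => defect ℓ (twist K (a r) D) (root hζ K) k[X]) ≤
          ∑' e : R → ℕ, f e * ∏ r, law ℓ (e r) + ε := by
  have hζ' : ζ ^ ℓ = 1 := hζ.pow_eq_one
  have h := Pool.Agent.Q269.OL.final_f hℓ hl2 h2 hζ hζ' K hn hn3 N hN a ha hs hc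
  refine ⟨h.1, ?_, ?_, ?_⟩
  · intro m hm D hD r
    have h1 := h.2.1 m hm D hD r
    refine ⟨h1, fun ho => ?_⟩
    have h3 : Function.Injective (a r) := by
      intro i j hij
      by_contra hne
      have h4 := ha r i j hne
      rw [hij, sub_self, natDegree_zero] at h4
      have := hN r
      omega
    have h5 : Pool.Agent.Q269.OL.BoundedPhi ℓ (Pool.Agent.Y164.HG.cur K (a r) D)
        (Pool.Agent.Q269.OL.zK hζ' K) k[X]
        (order ℓ (twist K (a r) D) (root hζ K) k[X]) := h1
    rw [ho] at h5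
    exact Pool.Agent.Q269.OL.good_cur hℓ hζ hζ' K (hn r) h3 hD.1.ne_zero h5
  · rw [law_eq]
    exact Pool.Agent.Q269.OL.hasSum_lw hℓ.two_le
  · rintro f hf ⟨B, hB⟩
    obtain ⟨h3, h4⟩ := Pool.Agent.Q269.OL.final_law hℓ hl2 h2 hζ hζ' K hn hn3 N hN a ha hs hc f hf hB
    rw [law_eq]
    refine ⟨h3, fun ε hε => ?_⟩
    obtain ⟨c0, hc0, hlow⟩ := h.1
    filter_upwards [h4 ε hε, hlow] with m hm hm2 ho
    have h5 := hm ho
    have hk : (0 : ℝ) < (Nat.card k : ℝ) := by exact_mod_cast Nat.card_pos
    have h6 : (0 : ℝ) < ((Twists a m).ncard : ℝ) := lt_of_lt_of_le (by positivity) hm2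
    rw [mean, div_le_iff₀ h6]
    exact h5

end Pool.Agent.Results.MP_1bdb59_nt.JointDefectLaw
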