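import Pool.Agent.Q45.HI.Fac
import Pool.Agent.Q45.HI.Res

/-!
# The Tate conjecture for divisors at `2` over towers of quadratic extensions of `k(t)`, with points

Let `k` be a field of characteristic different from two, `g` a monic polynomial over `k` of odd degree
with `g' ≠ 0`, and `J` the Jacobian of the curve `w ^ 2 = g(x) + t`.

Let `K₀` be any field which is obtained from `k(t)` by successive adjunctions of square roots, and
which is ramified, over the affine `t`-line, only over places `b` such that `b(-g(x))` is irreducible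
and separable over `k` (the place `b` is inert in the extension of `k(t)` which is given by a root of
`g(x) + t`). Let `c` be an element of `k` such that `g - c` is separable, the place `t = -c` is inert in
`K₀`, and the irreducible factors `Q₀, …, Q_r` of `g - c` remain irreducible over the residue field of
`K₀` at this place. Put `K = K₀(√(t + c))`; the genus of `K` is not bounded.

(1) The Tate conjecture for divisors at `2` holds for the surface `w ^ 2 = g(x) + t` over the curve
with the function field `K`, with respect to every Galois extension `k'` of `k`; the `2`-primary part of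
the Tate-Shafarevich group of `J` over `K` is zero, and the points `D_i` of `J(K)` given by the divisors
`Q_i(x) = 0`, `w = √(t + c)`, `i = 1, …, r` are linearly independent over `ℤ` and generate `J(K)` modulo
`2 ^ N` for all `N`.

(2) Let `k` be a number field, `n₀, …, n_r` odd numbers with an odd sum and `B` a finite set of
polynomials over `k`. For `100%` of the integer vectors (ordered by the height), which give the
coefficients of monic polynomials `Q₀, …, Q_r` of the degrees `n₀, …, n_r` and a number `c`, the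
conclusions hold for `g = c + Q₀ ⋯ Q_r` and for ALL the (infinitely many) fields `K₀` of this kind which
are unramified outside of `B` and infinity and in which the place `t = -c` is inert.
-/

set_option autoImplicit false
set_option linter.all false

open Polynomial IsDedekindDomain Filter Topology
open scoped Classical

namespace Pool.Agent.Results.MP_1bdb59_nt.QuadraticTowersMarkedPoint

open Pool.Agent.Y160.SL
open Pool.Agent.TH115.GD (incl Sep Comp)

/-- The elements of `k` as elements of `K`. -/
noncomputable def const (k K : Type) [Field k] [Field K] [Algebra k[X] K] : k →+* K :=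
  (algebraMap k[X] K).comp C

/-- The polynomial `f(x) = g(x) + t` over `K`, where `t` is the variable of `k[t]`. -/
noncomputable def fPoly {k : Type} [Field k] (g : k[X]) (K : Type) [Field K] [Algebra k[X] K] : K[X] :=
  g.map (const k K) + C (algebraMap k[X] K X)

/-- The subfield generated by `k(t)` and the elements `s j`, `j < i`. -/
def level (k : Type) [Field k] {K : Type} [Field K] [Algebra k[X] K] (s : ℕ → K) (i : ℕ) :
    Subfield K :=
  Subfield.closure (Set.range (algebraMap k[X] K) ∪ s '' {j | j < i})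

/-- The field `K` is obtained from `k(t)` by successive adjunctions of the square roots `s 0, …,
s (m - 1)`: the square of `s i` is in the field generated by `k(t)` and the elements `s j`, `j < i`. -/
structure IsTowerOfRoots (k : Type) [Field k] (K : Type) [Field K] [Algebra k[X] K] (m : ℕ)
    (s : ℕ → K) : Prop where
  inj : Function.Injective (algebraMap k[X] K)
  sq : ∀ i < m, s i ^ 2 ∈ level k s i
  gen : level k s m = ⊤

/-- The extension `A` of the ring `k[t]` is unramified outside of the places given by the monic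
irreducible polynomials in `S`. -/
def UnramifiedOutside {k : Type} [Field k] (A : Type) [CommRing A] [Algebra k[X] A]
    (S : Set k[X]) : Prop :=
  ∀ (v : HeightOneSpectrum A) (b : k[X]), b.Monic → Irreducible b →
    algebraMap k[X] A b ∈ v.asIdeal ^ 2 → b ∈ S

/-- The polynomials `b` such that `b(-g(x))` is irreducible and separable. -/
def inertSet {k : Type} [Field k] (g : k[X]) : Set k[X] :=
  {b | Irreducible (b.comp (-g)) ∧ (b.comp (-g)).Separable}

/-- The monic polynomials `Q 0, …, Q r` are irreducible over `k` and pairwise different, and their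
product is `g - c`. -/
structure IsFactorization {k : Type} [Field k] (g : k[X]) (c : k) {r : ℕ} (Q : Fin (r + 1) → k[X]) :
    Prop where
  monic : ∀ i, (Q i).Monic
  irreducible : ∀ i, Irreducible (Q i)
  injective : Function.Injective Q
  prod : ∏ i, Q i = g - C c

/-- The ideal of `A` generated by `t + c`. -/
def placeIdeal {k : Type} [Field k] (A : Type) [CommRing A] [Algebra k[X] A] (c : k) : Ideal A :=
  Ideal.span {algebraMap k[X] A (X + C c)}

/-- The map from `k[t]` to the residue ring of `A` at the place `t = -c`. -/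
noncomputable def resMap {k : Type} [Field k] (A : Type) [CommRing A] [Algebra k[X] A] (c : k) :
    k[X] →+* A ⧸ placeIdeal A c :=
  (Ideal.Quotient.mk (placeIdeal A c)).comp (algebraMap k[X] A)

/-- The polynomial `Q` over the residue ring of `A` at the place `t = -c`. -/
noncomputable def atPlace {k : Type} [Field k] (A : Type) [CommRing A] [Algebra k[X] A] (c : k)
    (Q : k[X]) : (A ⧸ placeIdeal A c)[X] := Q.map ((resMap A c).comp C)

/-- The field `K` is the extension `K₀(s)`, where `s ^ 2 = t + c`, of degree two. -/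
structure IsRootExtension {k : Type} [Field k] (c : k) (K₀ K : Type) [Field K₀] [Algebra k[X] K₀]
    [Field K] [Algebra K₀ K] (s : K) : Prop where
  sq : s ^ 2 = algebraMap K₀ K (algebraMap k[X] K₀ (X + C c))
  not_mem : ∀ x : K₀, algebraMap K₀ K x ≠ s
  gen : IntermediateField.adjoin K₀ {s} = ⊤

/-- The field `F` is the extension `k' K` of `K` by the constants `k'`. -/
structure IsConstantExtension (k k' K F : Type) [Field k] [Field k'] [Algebra k k'] [Field K]
    [Algebra k[X] K] [Field F] [Algebra k'[X] F] [Algebra K F] : Prop where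
  inj : Function.Injective (algebraMap k'[X] F)
  comp : ∀ p : k[X], algebraMap K F (algebraMap k[X] K p) =
    algebraMap k'[X] F (p.map (algebraMap k k'))
  gen : IntermediateField.adjoin K (Set.range ((algebraMap k'[X] F).comp C)) = ⊤

/-- The restriction of the cochain `c` to the completion of `F` at every maximal ideal of the Dedekind
domain `B` with field of fractions `F` is a coboundary. -/
def IsSelmer {K F : Type} [Field K] [Field F] [Algebra K F] (B : Type) [CommRing B]
    [IsDedekindDomain B] [Algebra B F] [IsFractionRing B F] (f : K[X])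
    (c : (Sep F ≃ₐ[F] Sep F) → Jac 2 f (Sep F)) : Prop :=
  ∀ v : HeightOneSpectrum B, LocTriv 2 f (Comp B F v) (Sep (Comp B F v)) c

/-- The class of `c`, with values in `T_2 J`, comes from `J(K)`: for every `n` there are `P` in `J(K)`
and `R` in `J(Sep F)` with `2 ^ n R = P` and `c n σ = σ R - R` for all `σ`. -/
def ComesFromK {K F : Type} [Field K] [Field F] [Algebra K F] (f : K[X])
    (c : ℕ → (Sep F ≃ₐ[F] Sep F) → Jac 2 f (Sep F)) : Prop :=
  ∀ n, ∃ (P : Jac 2 f K) (R : Jac 2 f (Sep F)), 2 ^ n • R = jm 2 f (incl K K (Sep F)) P ∧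
    IsCobOf 2 f (c n) R

/-- If `c` is a cocycle of `Gal(Sep F / F)` with values in `T_2 J` which is locally trivial at the
maximal ideals of `B`, and the class of `c` in `H ^ 1 (F, V_2 J)` is fixed by the Galois group of `K`,
then the class of `c` comes from `J(K)`. -/
def TateAt {K F : Type} [Field K] [Field F] [Algebra K F] (B : Type) [CommRing B]
    [IsDedekindDomain B] [Algebra B F] [IsFractionRing B F] (f : K[X]) : Prop :=
  ∀ c : ℕ → (Sep F ≃ₐ[F] Sep F) → Jac 2 f (Sep F), IsTC 2 2 f c →
    (∀ n, IsSelmer B f (c n)) → IsInv 2 2 f c → ComesFromK f c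

/-- The Tate conjecture at `2` for the surface with generic fibre `w ^ 2 = f(x)` over `K`, for every
Galois extension `k'` of `k` (for example `k` or the separable closure of `k`), `F = k' K` and `B` the
integral closure of `k'[t]` in `F`: only the places of `F` over the affine `t`-line are used. -/
def TateConj (k : Type) {K : Type} [Field k] [Field K] [Algebra k[X] K] (f : K[X]) : Prop :=
  ∀ (k' F B : Type) [Field k'] [Algebra k k'] [IsGalois k k'] [Field F] [Algebra k'[X] F]
    [Algebra K F] [CommRing B] [IsDedekindDomain B] [Algebra B F] [IsFractionRing B F]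
    [Algebra k'[X] B] [IsScalarTower k'[X] B F] [IsIntegralClosure B k'[X] F],
    IsConstantExtension k k' K F → TateAt (F := F) B f

/-- The ideal of the divisor `u(x) = 0`, `w = v(x)` in the coordinate ring of the affine curve
`w ^ 2 = f(x)`. -/
noncomputable def divIdeal {K : Type} [Field K] (f u v : K[X]) : Ideal (CoordRing 2 f) :=
  Ideal.span {ofPoly 2 f u, wfun 2 f - ofPoly 2 f v}

/-- The ideal `I` of `R` is an invertible module, and `P` is its class in the Picard group. -/
def IsIdealClass {R : Type} [CommRing R] (P : Additive (CommRing.Pic R)) (I : Ideal R) : Prop :=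
  ∃ _ : Module.Invertible R I, P = Additive.ofMul (CommRing.Pic.mk R I)

/-- The element `P` of `J(K) = Pic(K[x, w] / (w ^ 2 - f(x)))` is the class of the ideal of the divisor
`u(x) = 0`, `w = v(x)`. -/
def IsDivisor {K : Type} [Field K] (f u v : K[X]) (P : Jac 2 f K) : Prop :=
  IsIdealClass (R := CoordRing 2 (f.map (algebraMap K K))) P
    (divIdeal (f.map (algebraMap K K)) u v)

/-- The elements `D i` are linearly independent over `ℤ`, and they generate `M` modulo `2 ^ N` for all
`N`. -/
def IsBasisAtTwo {ι M : Type} [AddCommGroup M] (D : ι → M) : Prop :=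
  LinearIndependent ℤ D ∧
    ∀ (N : ℕ) (x : M), ∃ y : M, x - 2 ^ N • y ∈ AddSubgroup.closure (Set.range D)

/-- The conclusions for the field `K`, where `A` is the integral closure of `k[t]` in `K`: the Tate
conjecture at `2`, the triviality of the `2`-primary part of the Tate-Shafarevich group (even with
respect to the maximal ideals of `A` only), and the divisors `Q_i(x) = 0`, `w = s`, for `i = 1, …, r`, are
a basis of `J(K)` at `2`. -/
def Concl {k : Type} [Field k] (g : k[X]) {r : ℕ} (Q : Fin (r + 1) → k[X]) {K : Type} [Field K]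
    [Algebra k[X] K] (A : Type) [CommRing A] [IsDedekindDomain A] [Algebra A K] [IsFractionRing A K]
    (s : K) : Prop :=
  TateConj k (fPoly g K) ∧ ShaTriv 2 2 A (fPoly g K) ∧
    ∃ D : Fin r → Jac 2 (fPoly g K) K, IsBasisAtTwo D ∧
      ∀ i, IsDivisor (fPoly g K) ((Q i.succ).map (const k K)) (C s) (D i)

/-- The conclusions hold for all quadratic extensions `K = K₀(√(t + c))` of `K₀`. -/
def HoldsOver {k : Type} [Field k] (g : k[X]) (c : k) {r : ℕ} (Q : Fin (r + 1) → k[X])
    (K₀ : Type) [Field K₀] [Algebra k[X] K₀] : Prop :=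
  ∀ (K : Type) [Field K] [Algebra K₀ K] [Algebra k[X] K] [IsScalarTower k[X] K₀ K] (s : K),
    IsRootExtension (k := k) c K₀ K s →
    ∀ (A : Type) [CommRing A] [IsDedekindDomain A] [Algebra A K] [IsFractionRing A K]
      [Algebra k[X] A] [IsScalarTower k[X] A K] [IsIntegralClosure A k[X] K], Concl g Q A s

/-- The conditions on the tower `K₀`, with the integral closure `A₀` of `k[t]`: it is unramified
outside of `S`, and `t + c` generates a prime ideal of `A₀`. -/
structure IsInertAt {k : Type} [Field k] (c : k) (S : Set k[X]) (A₀ : Type) [CommRing A₀]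
    [Algebra k[X] A₀] : Prop where
  branching : UnramifiedOutside A₀ S
  inert : Prime (algebraMap k[X] A₀ (X + C c))

/-- (1) All fields. -/
def Criterion : Prop :=
  ∀ (k : Type) [Field k] (g : k[X]) (c : k) (r : ℕ) (Q : Fin (r + 1) → k[X]), (2 : k) ≠ 0 →
    g.Monic → Odd g.natDegree → derivative g ≠ 0 → (g - C c).Separable → IsFactorization g c Q →
    ∀ (K₀ : Type) [Field K₀] [Algebra k[X] K₀] (m : ℕ) (s₀ : ℕ → K₀), IsTowerOfRoots k K₀ m s₀ →
    ∀ (A₀ : Type) [CommRing A₀] [Algebra k[X] A₀] [Algebra A₀ K₀] [IsScalarTower k[X] A₀ K₀]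
      [IsIntegralClosure A₀ k[X] K₀], IsInertAt c (inertSet g) A₀ →
      (∀ i, Irreducible (atPlace A₀ c (Q i))) → HoldsOver g c Q K₀

/-- The integer parameters: `none` for `c`, `some ⟨i, j⟩` for the coefficient of `x ^ j` in `Q_i`. -/
abbrev Par {r : ℕ} (n : Fin (r + 1) → ℕ) : Type := Option (Σ i : Fin (r + 1), Fin (n i))

/-- The polynomial `Q_i = x ^ n_i + ∑ v_(i,j) x ^ j` over `k`. -/
noncomputable def factor (k : Type) [Field k] {r : ℕ} (n : Fin (r + 1) → ℕ) (v : Par n → ℤ)
    (i : Fin (r + 1)) : k[X] :=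
  X ^ n i + ∑ j : Fin (n i), C ((v (some ⟨i, j⟩) : ℤ) : k) * X ^ (j : ℕ)

/-- The polynomial `g = c + Q_0 ⋯ Q_r` over `k`. -/
noncomputable def gOf (k : Type) [Field k] {r : ℕ} (n : Fin (r + 1) → ℕ) (v : Par n → ℤ) : k[X] :=
  C ((v none : ℤ) : k) + ∏ i, factor k n v i

/-- The conclusions hold for the vector `v` and all towers `K₀` which are unramified outside of `S` and
in which the place `t = -c` is inert. -/
def HoldsFor (k : Type) [Field k] {r : ℕ} (n : Fin (r + 1) → ℕ) (S : Set k[X]) (v : Par n → ℤ) :
    Prop :=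
  ∀ (K₀ : Type) [Field K₀] [Algebra k[X] K₀] (m : ℕ) (s₀ : ℕ → K₀), IsTowerOfRoots k K₀ m s₀ →
    ∀ (A₀ : Type) [CommRing A₀] [Algebra k[X] A₀] [Algebra A₀ K₀] [IsScalarTower k[X] A₀ K₀]
      [IsIntegralClosure A₀ k[X] K₀], IsInertAt ((v none : ℤ) : k) S A₀ →
      HoldsOver (gOf k n v) ((v none : ℤ) : k) (factor k n v) K₀

/-- (2) Number fields: the set of the exceptions has density zero. -/
def NumberFields : Prop :=
  ∀ (k : Type) [Field k] [NumberField k] (r : ℕ) (n : Fin (r + 1) → ℕ), (∀ i, Odd (n i)) →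
    Odd (∑ i, n i) → ∀ B : Finset k[X],
      Tendsto (fun H : ℕ => (({v : Par n → ℤ | (∀ i, |v i| ≤ (H : ℤ)) ∧
        ¬ HoldsFor k n (B : Set k[X]) v}.ncard : ℕ) : ℝ) /
          (2 * (H : ℝ) + 1) ^ Fintype.card (Par n)) atTop (𝓝 0)

theorem tate_of {K F : Type} [Field K] [Field F] [Algebra K F] {B : Type} [CommRing B]
    [IsDedekindDomain B] [Algebra B F] [IsFractionRing B F] {f : K[X]}
    (h : Pool.Agent.Q45.GP.TateOver (F := F) 2 2 B f) : TateAt (F := F) B f := by
  intro c hc hl hi n
  exact h c ⟨fun n => ⟨(hc.coc n).lc, (hc.coc n).mul⟩, hc.zero, hc.step⟩ hl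
    (fun τ => by
      obtain ⟨m, Q, hQ, hm⟩ := hi τ
      exact ⟨m, Q, ⟨hQ.zero, hQ.step⟩, hm⟩) n

theorem eq_of_dvd {k : Type} [Field k] {g : k[X]} {c : k} {r : ℕ} {Q : Fin (r + 1) → k[X]}
    (hQ : IsFactorization g c Q) {G : k[X]} (hm : G.Monic) (hi : Irreducible G) (hd : G ∣ g - C c) :
    ∃ i, Q i = G := by
  rw [← hQ.prod] at hd
  obtain ⟨i, -, h⟩ := (hi.prime.dvd_finset_prod_iff _).1 hd
  exact ⟨i, (eq_of_monic_of_associated hm (hQ.monic i) (hi.associated_of_dvd (hQ.irreducible i) h)).symm⟩

theorem ram_of {k : Type} [Field k] {g : k[X]} {A : Type} [CommRing A] [Algebra k[X] A]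
    (h : UnramifiedOutside A (inertSet g)) : Pool.Agent.Q45.TT.Ram g A := by
  intro v b hb hbv
  have hl : b.leadingCoeff ≠ 0 := leadingCoeff_ne_zero.2 hb.ne_zero
  have hu : IsUnit (C (b.leadingCoeff⁻¹) : k[X]) := isUnit_C.2 (isUnit_iff_ne_zero.2 (inv_ne_zero hl))
  have hm : (b * C b.leadingCoeff⁻¹).Monic := monic_mul_leadingCoeff_inv hb.ne_zero
  have hi : Irreducible (b * C b.leadingCoeff⁻¹) := (irreducible_mul_isUnit hu).2 hb
  obtain ⟨h1, h2⟩ := h v _ hm hi (by
    rw [map_mul]
    exact Ideal.mul_mem_right _ _ hbv)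
  rw [mul_comp, C_comp] at h1 h2
  exact ⟨(irreducible_mul_isUnit hu).1 h1, h2.of_mul_left⟩

theorem criterion : Criterion := by
  intro k _ g c r Q h2 hg hodd hd hs hQ K₀ _ _ m s₀ hT A₀ _ _ _ _ _ hC hR K _ _ _ _ s hK A _ _ _ _ _ _ _
  have hfac : Pool.Agent.Q45.TT.IsFacs g c (fun i : Fin r => Q i.succ) (Q 0) := by
    refine ⟨fun i => ⟨hQ.monic _, hQ.irreducible _, ?_, ?_⟩, ?_, ⟨hQ.monic _, hQ.irreducible _, ?_⟩, ?_⟩
    · rw [← hQ.prod]
      exact Finset.dvd_prod_of_mem _ (Finset.mem_univ _)
    · intro h
      exact Fin.succ_ne_zero i (hQ.injective h)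
    · intro a b h
      exact Fin.succ_injective _ (hQ.injective h)
    · rw [← hQ.prod]
      exact Finset.dvd_prod_of_mem _ (Finset.mem_univ _)
    · intro G hm hi hdv hne
      obtain ⟨i, rfl⟩ := eq_of_dvd hQ hm hi hdv
      refine Fin.cases (fun h => absurd rfl h) (fun i _ => ⟨i, rfl⟩) i hne
  have hres : Pool.Agent.Q45.TT.ResIrr g c A₀ := by
    intro G hm hi hdv
    obtain ⟨i, rfl⟩ := eq_of_dvd hQ hm hi hdv
    exact hR i
  have hq : Pool.Agent.Q45.TT.IsQuad (K := K) (algebraMap k[X] K₀ (X + C c)) s := by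
    refine ⟨?_, hK.sq, hK.not_mem, hK.gen⟩
    intro h
    apply h2
    apply (Function.Injective.comp hT.inj C_injective : Function.Injective fun x : k =>
      algebraMap k[X] K₀ (C x))
    show algebraMap k[X] K₀ (C 2) = algebraMap k[X] K₀ (C 0)
    rw [C_0, map_zero, show (C (2 : k) : k[X]) = 2 from rfl, map_ofNat]
    exact h
  have hT' : Pool.Agent.Q45.TT.IsTower k K₀ m s₀ := ⟨hT.inj, hT.sq, hT.gen⟩
  have hr := ram_of hC.branching
  obtain ⟨h1, h3⟩ := Pool.Agent.Q45.TT.sha_mark h2 hg hodd hd hq hT' hr hs hC.inert hres (A := A) hfac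
  refine ⟨?_, shaTriv_of h1, _, h3, fun i => ?_⟩
  · intro k' F B _ _ _ _ _ _ _ _ _ _ _ _ _ hF
    exact tate_of (Pool.Agent.Q45.TT.tate_mark (k' := k') (A' := B) h2 hg hodd hd hq hT' hr hs
      hC.inert hres (A := A) ⟨hF.inj, hF.comp, hF.gen⟩)
  · exact Pool.Agent.Q45.TT.mark_cls h2 hg hodd hd hq hT' hs hC.inert hres (hQ.monic _)
      (hQ.irreducible _) (by
        rw [← hQ.prod]
        exact Finset.dvd_prod_of_mem _ (Finset.mem_univ _))

/-- (1) The criterion. (2) Number fields. -/
theorem result : Criterion ∧ NumberFields := by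
  refine ⟨criterion, ?_⟩
  intro k _ _ r n hn hsum B
  have hpos : ∀ i, 0 < n i := fun i => (hn i).pos
  have h2 : (2 : k) ≠ 0 := two_ne_zero
  refine Pool.Agent.Q45.HI.tendsto_of_ud (S := {v | ¬ HoldsFor k n (B : Set k[X]) v}) ?_
  intro ε hε
  refine Pool.Agent.Y706.UD_mono ?_ (Pool.Agent.Q45.HI.ud_fac (k := k) hpos B ε hε)
  intro v hv hcon
  apply hv
  obtain ⟨a1, a2, a3⟩ := hcon
  have hfv : factor k n v = Pool.Agent.Q45.HI.Qv k n v := rfl
  have hgv : gOf k n v = Pool.Agent.Q45.HI.gv k n v := rfl
  obtain ⟨hg, hgn⟩ := Pool.Agent.Q45.HI.gv_monic (k := k) hsum.pos v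
  rw [← hgv] at hg hgn a3
  rw [← hfv] at a1 a2
  have hmon : ∀ i, (factor k n v i).Monic := fun i => Pool.Agent.Y160.T3.mF_monic _
  have hdeg : ∀ i, (factor k n v i).natDegree = n i := fun i => Pool.Agent.Y160.T3.mF_natDegree _
  have hQ : IsFactorization (gOf k n v) ((v none : ℤ) : k) (factor k n v) :=
    ⟨hmon, a1, a2, by rw [gOf]; ring⟩
  have hodd : Odd (gOf k n v).natDegree := by rwa [hgn]
  have hsep : (gOf k n v - C ((v none : ℤ) : k)).Separable := by
    rw [← hQ.prod]
    refine separable_prod (fun i j hij => ?_) fun i => (a1 i).separable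
    exact ((a1 i).coprime_iff_not_dvd.2 fun h => hij (a2
      (eq_of_monic_of_associated (hmon i) (hmon j) ((a1 i).associated_of_dvd (a1 j) h))))
  intro K₀ _ _ m s₀ hT A₀ _ _ _ _ _ hC
  refine criterion k (gOf k n v) _ r (factor k n v) h2 hg hodd ?_ hsep hQ K₀ m s₀ hT A₀ ⟨?_, hC.inert⟩ ?_
  · intro h0
    have h1 := natDegree_eq_zero_of_derivative_eq_zero h0
    rw [h1] at hodd
    exact absurd hodd (by decide)
  · intro w b hbm hbi hbw
    have hbB : b ∈ B := by exact_mod_cast hC.branching w b hbm hbi hbw
    exact ⟨a3 b hbB hbi, (a3 b hbB hbi).separable⟩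
  · intro i
    exact Pool.Agent.Q45.HI.res_irr h2 (⟨hT.inj, hT.sq, hT.gen⟩ : Pool.Agent.Q45.TT.IsTower k K₀ m s₀)
      A₀ hC.inert (hmon i) (a1 i) (by rw [hdeg]; exact hn i)

end Pool.Agent.Results.MP_1bdb59_nt.QuadraticTowersMarkedPoint
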